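import Pool.Agent.Q195.ESN.STA
import Pool.Agent.Q14.ESM.RB

/-! # Project ESN of helper161: job ST (copy of helper223's ESM.ST), one step of the recursion -/

set_option autoImplicit false
set_option linter.unusedSectionVars false

namespace Pool.Agent.Q195.ESN.ST

open Finset
open Pool.Agent.Q51.EL (pr)
open Pool.Agent.Q161.ESN
open Pool.Agent.Q14.ESM (mem_PP PP_mono vv_pos frac_nonneg frac_le_one)

variable {ι : Type} [Fintype ι] [DecidableEq ι] {n : ι → ℕ}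

theorem Wt_nonneg (s : Sy n) (S : Finset ι) (Y : ℝ) (x : Vc n) : 0 ≤ Wt s S Y x :=
  prod_nonneg (fun _ _ => frac_nonneg _ _ _ _)

theorem Wt_le_one (s : Sy n) (S : Finset ι) (Y : ℝ) (x : Vc n) : Wt s S Y x ≤ 1 :=
  prod_le_one (fun _ _ => frac_nonneg _ _ _ _) (fun _ hl => frac_le_one _ _ (mem_PP.1 hl).1 _)

theorem Wt_split (s : Sy n) (S : Finset ι) {Y Y1 Y2 : ℝ} (h1 : Y ≤ Y1) (h2 : Y1 ≤ Y2) (x : Vc n) :
    Wt s S Y2 x ≤ Wt s S Y x * ∏ l ∈ PP s.B Y2 \ PP s.B Y1, frac n s.Om S l x := by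
  have h3 : Wt s S Y2 x = (∏ l ∈ PP s.B Y2 \ PP s.B Y1, frac n s.Om S l x) * ∏ l ∈ PP s.B Y1, frac n s.Om S l x := by
    unfold Wt
    exact (prod_sdiff (PP_mono s.B h2)).symm
  have h4 : ∏ l ∈ PP s.B Y1, frac n s.Om S l x ≤ Wt s S Y x := by
    unfold Wt
    rw [← prod_sdiff (PP_mono s.B h1)]
    apply mul_le_of_le_one_left (prod_nonneg (fun _ _ => frac_nonneg _ _ _ _))
    exact prod_le_one (fun _ _ => frac_nonneg _ _ _ _)
      (fun _ hl => frac_le_one _ _ (mem_PP.1 (mem_sdiff.1 hl).1).1 _)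
  rw [h3, mul_comm]
  exact mul_le_mul_of_nonneg_right h4 (prod_nonneg (fun _ _ => frac_nonneg _ _ _ _))

/-- the application of `S_FR` -/
theorem fr_app (hFR : S_FR) (s : Sy n) (A c κ : ℝ) (hs : Ok s A c κ) : ∃ C : ℝ, 0 < C ∧
    ∀ (S S' : Finset ι) (H : ι → ℝ) (Y : ℝ) (z : Vc n) (X : Finset (Vc n)), S' ⊆ S → (S \ S').Nonempty →
    1 ≤ Y → (∀ i ∈ S \ S', Y ≤ H i) → ((∏ i ∈ univ \ S, s.Nm i (z i) : ℕ) : ℝ) ^ 2 ≤ Y →
    (∀ i, i ∉ S → s.Nm i (z i) ≠ 0) →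
    (∀ x ∈ X, (∀ i ∈ S \ S', ∀ j, |(x i j : ℝ)| ≤ H i) ∧ ∀ i, i ∉ S \ S' → x i = z i) →
    ∑ x ∈ X, Wt s S' Y x ≤ C * (∏ i ∈ S \ S', H i ^ n i) * Wt s S Y z := by
  classical
  have hA1 := hs.A1
  obtain ⟨C, hC, h⟩ := hFR ι n (Fintype.card ι * A) hs.n1 (by positivity)
  refine ⟨C * 3 ^ (∑ i, n i), by positivity, ?_⟩
  intro S S' H Y z X hSS hne hY hH hQ hnm hX
  set Q := ∏ i ∈ univ \ S, s.Nm i (z i) with hQd
  have hQ0 : Q ≠ 0 := by
    rw [hQd, prod_ne_zero_iff]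
    intro i hi
    rw [mem_sdiff] at hi
    exact hnm i hi.2
  set Pb := (PP s.B Y).filter (fun l => l ∣ Q) with hPb
  set P := (PP s.B Y).filter (fun l => ¬ l ∣ Q) with hP
  have hun : P ∪ Pb = PP s.B Y := by
    rw [hP, hPb, union_comm]
    exact filter_union_filter_not_eq _ _
  have hunS : (S \ S') ∪ S' = S := sdiff_union_of_subset hSS
  have hH1 : ∀ i ∈ S \ S', 1 ≤ H i := fun i hi => hY.trans (hH i hi)
  have key := h s.Om (S \ S') S' z (fun i _ => -(⌊H i⌋₊ : ℤ)) (fun i => 2 * ⌊H i⌋₊ + 1) Y P Pb X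
    (disjoint_sdiff_self_left) hne hY ?_ ?_ ?_ ?_ ?_ ?_
  · rw [hun, hunS] at key
    refine key.trans ?_
    have h1 : ∏ i ∈ S \ S', ((2 * ⌊H i⌋₊ + 1 : ℕ) : ℝ) ^ n i ≤
        3 ^ (∑ i, n i) * ∏ i ∈ S \ S', H i ^ n i := by
      have h2 : ∀ i ∈ S \ S', ((2 * ⌊H i⌋₊ + 1 : ℕ) : ℝ) ^ n i ≤ 3 ^ n i * H i ^ n i := by
        intro i hi
        rw [← mul_pow]
        apply pow_le_pow_left₀ (by positivity)
        have h3 := Nat.floor_le (zero_le_one.trans (hH1 i hi))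
        have h4 := hH1 i hi
        push_cast
        linarith
      calc ∏ i ∈ S \ S', ((2 * ⌊H i⌋₊ + 1 : ℕ) : ℝ) ^ n i ≤ ∏ i ∈ S \ S', (3 ^ n i * H i ^ n i) :=
            prod_le_prod (fun i _ => by positivity) h2
        _ = 3 ^ (∑ i ∈ S \ S', n i) * ∏ i ∈ S \ S', H i ^ n i := by
            rw [prod_mul_distrib, prod_pow_eq_pow_sum]
        _ ≤ 3 ^ (∑ i, n i) * ∏ i ∈ S \ S', H i ^ n i := by
            apply mul_le_mul_of_nonneg_right
            · apply pow_le_pow_right₀ (by norm_num)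
              exact sum_le_sum_of_subset (subset_univ _)
            · exact prod_nonneg (fun i hi => pow_nonneg (zero_le_one.trans (hH1 i hi)) _)
    have h5 : (0 : ℝ) ≤ ∏ l ∈ PP s.B Y, frac n s.Om S l z := prod_nonneg (fun _ _ => frac_nonneg _ _ _ _)
    calc C * (∏ i ∈ S \ S', ((2 * ⌊H i⌋₊ + 1 : ℕ) : ℝ) ^ n i) * ∏ l ∈ PP s.B Y, frac n s.Om S l z
        ≤ C * (3 ^ (∑ i, n i) * ∏ i ∈ S \ S', H i ^ n i) * ∏ l ∈ PP s.B Y, frac n s.Om S l z :=
          mul_le_mul_of_nonneg_right (mul_le_mul_of_nonneg_left h1 hC.le) h5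
      _ = C * 3 ^ (∑ i, n i) * (∏ i ∈ S \ S', H i ^ n i) * Wt s S Y z := by
          unfold Wt
          ring
  · intro i hi
    have h1 := hH i hi
    have h2 := Nat.lt_floor_add_one (H i)
    have h3 : (0 : ℝ) ≤ ⌊H i⌋₊ := Nat.cast_nonneg _
    push_cast
    linarith
  · rw [hP, hPb]
    exact (disjoint_filter_filter_not _ _ _).symm
  · intro l hl
    rw [hun, mem_PP] at hl
    exact ⟨hl.1, hl.2.2⟩
  · have h1 : ∏ l ∈ Pb, l ∣ Q := by
      apply Finset.prod_primes_dvd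
      · intro l hl
        rw [hPb, mem_filter, mem_PP] at hl
        exact hl.1.1.prime
      · intro l hl
        rw [hPb, mem_filter] at hl
        exact hl.2
    have h2 : ((∏ l ∈ Pb, l : ℕ) : ℝ) ≤ Q := by exact_mod_cast Nat.le_of_dvd (Nat.pos_of_ne_zero hQ0) h1
    exact (pow_le_pow_left₀ (Nat.cast_nonneg _) h2 2).trans hQ
  · intro l hl
    rw [hP, mem_filter, mem_PP] at hl
    rw [hunS]
    apply frac_ge hs hl.1.1 hl.1.2.1
    intro i hi
    by_contra hcon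
    apply hl.2
    have h1 := hs.nm l hl.1.1 hl.1.2.1 i (z i) hcon
    exact h1.trans (dvd_prod_of_mem _ (mem_sdiff.2 ⟨mem_univ i, hi⟩))
  · intro x hx
    obtain ⟨h1, h2⟩ := hX x hx
    refine ⟨fun i hi j => ?_, h2⟩
    have h3 := h1 i hi j
    have h4 : (|x i j| : ℤ) ≤ ⌊H i⌋₊ := by
      have h5 : ((|x i j|.natAbs : ℕ) : ℝ) ≤ H i := by
        rw [Nat.cast_natAbs, abs_abs, Int.cast_abs]
        exact h3
      have h6 := Nat.le_floor h5
      have h7 : ((|x i j|.natAbs : ℕ) : ℤ) = |x i j| := by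
        rw [Int.natCast_natAbs, abs_abs]
      rw [← h7]
      exact_mod_cast h6
    have h5 := abs_le.1 h4
    refine ⟨h5.1, ?_⟩
    push_cast
    linarith [h5.2]

open Classical in
/-- the number of the exceptional vectors -/
theorem exc_card (i0 : ι) (L : ℝ) (T : Finset ι) (hi0 : i0 ∈ T) (H : ι → ℝ)
    (z : Vc n) (E : Finset (Vc n)) (hH : ∀ i ∈ T, 1 ≤ H i)
    (hE : ∀ x ∈ E, (∀ i ∈ T, ∀ j, |(x i j : ℝ)| ≤ H i) ∧ ∀ i, i ∉ T → x i = z i)
    (hfib : ∀ (w : Vc n) (F : Finset (Fin (n i0) → ℤ)),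
      (∀ y ∈ F, Function.update w i0 y ∈ E) → (F.card : ℝ) * L ≤ H i0 ^ n i0) :
    (E.card : ℝ) * L ≤ 3 ^ (∑ i, n i) * ∏ i ∈ T, H i ^ n i := by
  classical
  set π : Vc n → Vc n := fun x => Function.update x i0 (z i0) with hπ
  have h1 : E.card = ∑ w ∈ E.image π, (E.filter (fun x => π x = w)).card :=
    card_eq_sum_card_image π E
  have h2 : ∀ w ∈ E.image π, ((E.filter (fun x => π x = w)).card : ℝ) * L ≤ H i0 ^ n i0 := by
    intro w _
    have h3 : ((E.filter (fun x => π x = w)).image (fun x => x i0)).card = (E.filter (fun x => π x = w)).card := by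
      apply card_image_of_injOn
      intro x hx y hy hxy
      rw [coe_filter, Set.mem_ofPred_eq] at hx hy
      have h4 : Function.update x i0 (z i0) = Function.update y i0 (z i0) := hx.2.trans hy.2.symm
      funext i
      by_cases hi : i = i0
      · subst hi
        exact hxy
      · have h5 := congrFun h4 i
        rwa [Function.update_of_ne hi, Function.update_of_ne hi] at h5
    rw [← h3]
    apply hfib w
    intro y hy
    rw [mem_image] at hy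
    obtain ⟨x, hx, rfl⟩ := hy
    rw [mem_filter] at hx
    have h4 : Function.update w i0 (x i0) = x := by
      rw [← hx.2, hπ]
      simp only
      rw [Function.update_idem, Function.update_eq_self]
    rw [h4]
    exact hx.1
  have h3 : ((E.image π).card : ℝ) ≤ 3 ^ (∑ i, n i) * ∏ i ∈ T.erase i0, H i ^ n i := by
    apply card_box (T.erase i0) H z (E.image π) (fun i hi => hH i (mem_erase.1 hi).2)
    intro w hw
    rw [mem_image] at hw
    obtain ⟨x, hx, rfl⟩ := hw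
    obtain ⟨h4, h5⟩ := hE x hx
    refine ⟨fun i hi j => ?_, fun i hi => ?_⟩
    · rw [mem_erase] at hi
      rw [hπ]
      simp only
      rw [Function.update_of_ne hi.1]
      exact h4 i hi.2 j
    · rw [hπ]
      simp only
      by_cases h : i = i0
      · subst h
        rw [Function.update_self]
      · rw [Function.update_of_ne h]
        exact h5 i (fun hT => hi (mem_erase.2 ⟨h, hT⟩))
  have hH0 : 0 ≤ H i0 ^ n i0 := pow_nonneg (zero_le_one.trans (hH i0 hi0)) _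
  calc (E.card : ℝ) * L = ∑ w ∈ E.image π, ((E.filter (fun x => π x = w)).card : ℝ) * L := by
        rw [h1]
        push_cast
        rw [sum_mul]
    _ ≤ ∑ w ∈ E.image π, H i0 ^ n i0 := sum_le_sum h2
    _ = (E.image π).card * H i0 ^ n i0 := by rw [sum_const, nsmul_eq_mul]
    _ ≤ (3 ^ (∑ i, n i) * ∏ i ∈ T.erase i0, H i ^ n i) * H i0 ^ n i0 := mul_le_mul_of_nonneg_right h3 hH0
    _ = 3 ^ (∑ i, n i) * ∏ i ∈ T, H i ^ n i := by
        rw [← mul_prod_erase T (fun i => H i ^ n i) hi0]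
        ring

/-- the summation -/
theorem core (s : Sy n) {S' : Finset ι} {M W CF CR CB CE A1 A0 b Y Y1 Y2 : ℝ} {X E : Finset (Vc n)}
    (hY : 1 ≤ Y) (hY1 : Y ≤ Y1) (hY2 : Y1 ≤ Y2) (hA1 : 1 ≤ A1) (hv : vv Y1 ≤ A1 * vv Y) (hb : 0 < b) (hb1 : b ≤ 1)
    (hM : 0 ≤ M) (hW : 0 ≤ W) (hCF : 0 ≤ CF) (hCR : 0 ≤ CR) (hCB : 0 ≤ CB) (hCE : 0 ≤ CE) (hEX : E ⊆ X)
    (hF : ∑ x ∈ X, Wt s S' Y x ≤ CF * M * W)
    (h1 : ∀ x ∈ X, x ∉ E → ∏ l ∈ PP s.B Y2 \ PP s.B Y1, frac n s.Om S' l x ≤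
      CR * (vv Y1 / vv Y2) ^ (S'.card - 1) * ((vv Y1 / vv Y2) ^ b + vv Y1 ^ (-b)))
    (h2 : ∀ x ∈ E, ∏ l ∈ PP s.B Y2 \ PP s.B Y1, frac n s.Om S' l x ≤ CB * (vv Y1 / vv Y2) ^ (S'.card - 1))
    (h3 : (E.card : ℝ) ≤ CE * M * vv Y ^ (-A0)) :
    ∑ x ∈ X, Wt s S' Y2 x ≤ (A1 ^ Fintype.card ι * (CR * A1 * CF + CB * CE)) * M *
      (vv Y / vv Y2) ^ (S'.card - 1) * (((vv Y / vv Y2) ^ b + vv Y ^ (-b)) * W + vv Y ^ (-A0)) := by
  classical
  have hv0 := vv_pos hY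
  have hv1 := vv_pos (hY.trans hY1)
  have hv2 := vv_pos ((hY.trans hY1).trans hY2)
  have hvv : vv Y ≤ vv Y1 := by
    unfold vv
    have := Real.log_le_log (by linarith) hY1
    linarith
  set ρ1 := vv Y1 / vv Y2 with hρ1
  set ρ := vv Y / vv Y2 with hρ
  have hρ0 : 0 < ρ := div_pos (by linarith) (by linarith)
  have hρ10 : 0 < ρ1 := div_pos (by linarith) (by linarith)
  have hρρ : ρ1 ≤ A1 * ρ := by
    rw [hρ1, hρ, ← mul_div_assoc]
    exact div_le_div_of_nonneg_right hv (by linarith)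
  set m := S'.card - 1 with hm
  have hm1 : ρ1 ^ m ≤ A1 ^ Fintype.card ι * ρ ^ m := by
    calc ρ1 ^ m ≤ (A1 * ρ) ^ m := pow_le_pow_left₀ hρ10.le hρρ m
      _ = A1 ^ m * ρ ^ m := mul_pow _ _ _
      _ ≤ A1 ^ Fintype.card ι * ρ ^ m := by
          apply mul_le_mul_of_nonneg_right _ (by positivity)
          apply pow_le_pow_right₀ hA1
          have := S'.card_le_univ
          omega
  have hb2 : ρ1 ^ b ≤ A1 * ρ ^ b := by
    calc ρ1 ^ b ≤ (A1 * ρ) ^ b := Real.rpow_le_rpow hρ10.le hρρ hb.le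
      _ = A1 ^ b * ρ ^ b := Real.mul_rpow (by linarith) hρ0.le
      _ ≤ A1 * ρ ^ b := by
          apply mul_le_mul_of_nonneg_right _ (Real.rpow_nonneg hρ0.le _)
          calc A1 ^ b ≤ A1 ^ (1 : ℝ) := Real.rpow_le_rpow_of_exponent_le hA1 hb1
            _ = A1 := Real.rpow_one _
  have hb3 : vv Y1 ^ (-b) ≤ A1 * vv Y ^ (-b) := by
    have h4 : vv Y1 ^ (-b) ≤ vv Y ^ (-b) :=
      Real.rpow_le_rpow_of_nonpos (by linarith) hvv (by linarith)
    have h5 : 0 ≤ vv Y ^ (-b) := Real.rpow_nonneg (by linarith) _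
    nlinarith
  have hb4 : ρ1 ^ b + vv Y1 ^ (-b) ≤ A1 * (ρ ^ b + vv Y ^ (-b)) := by
    rw [mul_add]
    exact add_le_add hb2 hb3
  set g := ρ ^ b + vv Y ^ (-b) with hg
  have hg0 : 0 ≤ g := add_nonneg (Real.rpow_nonneg hρ0.le _) (Real.rpow_nonneg (by linarith) _)
  have hK : 0 ≤ A1 ^ Fintype.card ι := by positivity
  have hρm : 0 ≤ ρ ^ m := by positivity
  have hvA : 0 ≤ vv Y ^ (-A0) := Real.rpow_nonneg (by linarith) _
  have hC1 : CR * ρ1 ^ m * (ρ1 ^ b + vv Y1 ^ (-b)) ≤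
      CR * (A1 ^ Fintype.card ι * ρ ^ m) * (A1 * g) := by
    apply mul_le_mul (mul_le_mul_of_nonneg_left hm1 hCR) hb4
    · exact add_nonneg (Real.rpow_nonneg hρ10.le _) (Real.rpow_nonneg (by linarith) _)
    · positivity
  have hC2 : CB * ρ1 ^ m ≤ CB * (A1 ^ Fintype.card ι * ρ ^ m) := mul_le_mul_of_nonneg_left hm1 hCB
  have hsplit : ∑ x ∈ X, Wt s S' Y2 x = ∑ x ∈ X \ E, Wt s S' Y2 x + ∑ x ∈ E, Wt s S' Y2 x :=
    (sum_sdiff hEX).symm
  have hpart1 : ∑ x ∈ X \ E, Wt s S' Y2 x ≤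
      (CR * (A1 ^ Fintype.card ι * ρ ^ m) * (A1 * g)) * (CF * M * W) := by
    calc ∑ x ∈ X \ E, Wt s S' Y2 x
        ≤ ∑ x ∈ X \ E, Wt s S' Y x * (CR * (A1 ^ Fintype.card ι * ρ ^ m) * (A1 * g)) := by
          apply sum_le_sum
          intro x hx
          rw [mem_sdiff] at hx
          refine (Wt_split s S' hY1 hY2 x).trans ?_
          exact mul_le_mul_of_nonneg_left ((h1 x hx.1 hx.2).trans hC1) (Wt_nonneg _ _ _ _)
      _ = (CR * (A1 ^ Fintype.card ι * ρ ^ m) * (A1 * g)) * ∑ x ∈ X \ E, Wt s S' Y x := by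
          rw [← sum_mul, mul_comm]
      _ ≤ (CR * (A1 ^ Fintype.card ι * ρ ^ m) * (A1 * g)) * ∑ x ∈ X, Wt s S' Y x := by
          apply mul_le_mul_of_nonneg_left _ (by positivity)
          exact sum_le_sum_of_subset_of_nonneg sdiff_subset (fun x _ _ => Wt_nonneg _ _ _ _)
      _ ≤ _ := mul_le_mul_of_nonneg_left hF (by positivity)
  have hpart2 : ∑ x ∈ E, Wt s S' Y2 x ≤ (CE * M * vv Y ^ (-A0)) * (CB * (A1 ^ Fintype.card ι * ρ ^ m)) := by
    calc ∑ x ∈ E, Wt s S' Y2 x ≤ ∑ x ∈ E, CB * (A1 ^ Fintype.card ι * ρ ^ m) := by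
          apply sum_le_sum
          intro x hx
          refine (Wt_split s S' hY1 hY2 x).trans ?_
          have h4 := (h2 x hx).trans hC2
          have h5 := Wt_le_one s S' Y x
          have h6 : 0 ≤ ∏ l ∈ PP s.B Y2 \ PP s.B Y1, frac n s.Om S' l x :=
            prod_nonneg (fun _ _ => frac_nonneg _ _ _ _)
          exact (mul_le_of_le_one_left h6 h5).trans h4
      _ = E.card * (CB * (A1 ^ Fintype.card ι * ρ ^ m)) := by rw [sum_const, nsmul_eq_mul]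
      _ ≤ _ := mul_le_mul_of_nonneg_right h3 (by positivity)
  have hp1 : 0 ≤ A1 ^ Fintype.card ι * M * ρ ^ m * (CR * A1 * CF) * vv Y ^ (-A0) := by positivity
  have hp2 : 0 ≤ A1 ^ Fintype.card ι * M * ρ ^ m * (CB * CE) * (g * W) := by positivity
  rw [hsplit]
  nlinarith [hpart1, hpart2, hp1, hp2]

/-- the conclusion for given `S'`, `i0` -/
def Con (s : Sy n) (A1 A0 : ℝ) (S' : Finset ι) (i0 : ι) (b C : ℝ) : Prop :=
  ∀ (S : Finset ι) (H : ι → ℝ) (Y Y1 Y2 : ℝ) (z : Vc n) (X : Finset (Vc n)), S' ⊆ S → S'.Nonempty →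
    1 ≤ Y → Y ≤ Y1 → Y1 ≤ Y2 → vv Y1 ≤ A1 * vv Y → (∀ i ∈ S \ S', Y ≤ H i ∧ H i ≤ Y1) →
    i0 ∈ S \ S' → H i0 = Y1 →
    ((∏ i ∈ univ \ S, s.Nm i (z i) : ℕ) : ℝ) ^ 2 ≤ Y →
    (∀ i, i ∉ S → (∀ j, |(z i j : ℝ)| ≤ Y) ∧ s.Nm i (z i) ≠ 0) →
    (∀ x ∈ X, (∀ i ∈ S \ S', x i ∈ s.Nc i ∧ ∀ j, |(x i j : ℝ)| ≤ H i) ∧ ∀ i, i ∉ S \ S' → x i = z i) →
    ∑ x ∈ X, Wt s S' Y2 x ≤ C * (∏ i ∈ S \ S', H i ^ n i) * (vv Y / vv Y2) ^ (S'.card - 1) *
      (((vv Y / vv Y2) ^ b + vv Y ^ (-b)) * Wt s S Y z + vv Y ^ (-A0))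

theorem Con.mono {s : Sy n} {A1 A0 : ℝ} {S' : Finset ι} {i0 : ι} {b C b' C' : ℝ} (h : Con s A1 A0 S' i0 b C)
    (hb : b' ≤ b) (hC0 : 0 ≤ C) (hC : C ≤ C') : Con s A1 A0 S' i0 b' C' := by
  intro S H Y Y1 Y2 z X hSS hne hY hY1 hY2 hv hH hi0 hHi hQ hz hX
  refine (h S H Y Y1 Y2 z X hSS hne hY hY1 hY2 hv hH hi0 hHi hQ hz hX).trans ?_
  have hv0 := vv_pos hY
  have hv2 := vv_pos ((hY.trans hY1).trans hY2)
  have hvv : vv Y ≤ vv Y2 := by
    unfold vv
    have := Real.log_le_log (by linarith) (hY1.trans hY2)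
    linarith
  have hρ0 : 0 < vv Y / vv Y2 := div_pos (by linarith) (by linarith)
  have hρ1 : vv Y / vv Y2 ≤ 1 := by
    rw [div_le_one (by linarith)]
    exact hvv
  have h1 : (vv Y / vv Y2) ^ b ≤ (vv Y / vv Y2) ^ b' := Real.rpow_le_rpow_of_exponent_ge hρ0 hρ1 hb
  have h2 : vv Y ^ (-b) ≤ vv Y ^ (-b') := Real.rpow_le_rpow_of_exponent_le hv0 (by linarith)
  have hM : 0 ≤ ∏ i ∈ S \ S', H i ^ n i :=
    prod_nonneg (fun i hi => pow_nonneg (by linarith [(hH i hi).1]) _)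
  have hρm : 0 ≤ (vv Y / vv Y2) ^ (S'.card - 1) := by positivity
  have h3 : 0 ≤ vv Y ^ (-A0) := Real.rpow_nonneg (by linarith) _
  have h4 : 0 ≤ (vv Y / vv Y2) ^ b := Real.rpow_nonneg hρ0.le _
  have h5 : 0 ≤ vv Y ^ (-b) := Real.rpow_nonneg (by linarith) _
  have h6 := Wt_nonneg s S Y z
  apply mul_le_mul
  · apply mul_le_mul_of_nonneg_right _ hρm
    exact mul_le_mul_of_nonneg_right hC hM
  · have : ((vv Y / vv Y2) ^ b + vv Y ^ (-b)) * Wt s S Y z ≤
        ((vv Y / vv Y2) ^ b' + vv Y ^ (-b')) * Wt s S Y z :=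
      mul_le_mul_of_nonneg_right (add_le_add h1 h2) h6
    linarith
  · positivity
  · have : 0 ≤ C' := hC0.trans hC
    positivity

/-- one pair -/
theorem pair (hFR : S_FR) (hRB : S_RB) (hRBX : S_RBX) (s : Sy n) (A c κ : ℝ) (hs : Ok s A c κ) (hEx : Ex s)
    (A1 A0 : ℝ) (S' : Finset ι) (i0 : ι) : ∃ b C : ℝ, 0 < b ∧ b ≤ 1 ∧ 0 < C ∧ Con s A1 A0 S' i0 b C := by
  classical
  by_cases hne : S'.Nonempty
  swap
  · exact ⟨1, 1, one_pos, le_rfl, one_pos, fun S H Y Y1 Y2 z X _ h => absurd h hne⟩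
  by_cases hi0 : i0 ∈ S'
  · refine ⟨1, 1, one_pos, le_rfl, one_pos, fun S H Y Y1 Y2 z X _ _ _ _ _ _ _ h => ?_⟩
    exact absurd hi0 (mem_sdiff.1 h).2
  have hnu : S' ≠ univ := fun h => hi0 (h ▸ mem_univ i0)
  obtain ⟨CF, hCF, hF⟩ := fr_app hFR s A c κ hs
  obtain ⟨CB, hCB, hB⟩ := hRB ι n s A c κ hs
  have hcκ : 0 < c * κ := mul_pos hs.c0 hs.κ0
  set A1' := max A1 1 with hA1'
  have hA1'1 : 1 ≤ A1' := le_max_right _ _
  by_cases hbad : s.Bad S'
  · set A0' := max A0 0 with hA0'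
    have hA0'0 : 0 ≤ A0' := le_max_right _ _
    obtain ⟨b0, C0, Y0, hb0, hY0, hE0⟩ := hEx S' hne hnu hbad i0 hi0 A0'
    obtain ⟨b, CR, hb, hb1, hCR, hR⟩ := hRBX ι n s A c κ hs b0 C0 hb0
    have hvY0 : 1 ≤ vv Y0 := vv_pos (by linarith)
    set CE := 3 ^ (∑ i, n i) * (2 ^ A0' + vv Y0 ^ A0') with hCE
    have hCE0 : 0 < CE := by positivity
    refine ⟨b, A1' ^ Fintype.card ι * (CR * A1' * CF + CB * CE), hb, hb1, by positivity, ?_⟩
    intro S H Y Y1 Y2 z X hSS _ hY hY1 hY2 hv hH hi0S hHi hQ hz hX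
    have hv0 := vv_pos hY
    have hv' : vv Y1 ≤ A1' * vv Y := hv.trans (mul_le_mul_of_nonneg_right (le_max_left _ _) (by linarith))
    have hM : 0 ≤ ∏ i ∈ S \ S', H i ^ n i :=
      prod_nonneg (fun i hi => pow_nonneg (by linarith [(hH i hi).1]) _)
    have hnm : ∀ x ∈ X, ∀ i, i ∉ S' → (∀ j, |(x i j : ℝ)| ≤ Y1) ∧ s.Nm i (x i) ≠ 0 := by
      intro x hx i hi
      obtain ⟨h1, h2⟩ := hX x hx
      by_cases hiS : i ∈ S
      · have h3 := h1 i (mem_sdiff.2 ⟨hiS, hi⟩)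
        exact ⟨fun j => (h3.2 j).trans (hH i (mem_sdiff.2 ⟨hiS, hi⟩)).2, hs.n0 i (x i) h3.1⟩
      · rw [h2 i (fun h => hiS (mem_sdiff.1 h).1)]
        exact ⟨fun j => ((hz i hiS).1 j).trans hY1, (hz i hiS).2⟩
    have hFX := hF S S' H Y z X hSS ⟨i0, hi0S⟩ hY (fun i hi => (hH i hi).1) hQ (fun i hi => (hz i hi).2)
      (fun x hx => ⟨fun i hi => ((hX x hx).1 i hi).2, (hX x hx).2⟩)
    have hvA : vv Y ^ (-A0') ≤ vv Y ^ (-A0) :=
      Real.rpow_le_rpow_of_exponent_le hv0 (by linarith [le_max_left A0 0])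
    by_cases hYY : Y0 ≤ Y1
    · apply core s (E := X.filter (fun x => ¬ Nx s S' b0 C0 Y1 x)) hY hY1 hY2 hA1'1 hv' hb hb1 hM
        (Wt_nonneg _ _ _ _) hCF.le hCR.le hCB.le hCE0.le (filter_subset _ _) hFX
      · intro x hx hxE
        rw [mem_filter, not_and, not_not] at hxE
        exact hR S' x Y1 Y2 hne hnu hbad (by linarith) hY2 (hnm x hx) (hxE hx)
      · intro x hx
        rw [mem_filter] at hx
        exact (hB S' x Y1 Y2 hne (by linarith) hY2 (hnm x hx.1)).1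
      · have hlog1 : 1 ≤ Real.log Y1 := by
          have h1 : Real.log 16 ≤ Real.log Y1 := Real.log_le_log (by norm_num) (by linarith)
          have h2 : Real.log 16 = 4 * Real.log 2 := by
            rw [show (16 : ℝ) = 2 ^ 4 by norm_num, Real.log_pow]
            norm_num
          have := Real.log_two_gt_d9
          linarith
        have hL : 0 < Real.log Y1 ^ A0' := Real.rpow_pos_of_pos (by linarith) _
        have hcard := exc_card i0 (Real.log Y1 ^ A0') (S \ S') hi0S H z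
          (X.filter (fun x => ¬ Nx s S' b0 C0 Y1 x)) (fun i hi => hY.trans (hH i hi).1)
          (fun x hx => by
            rw [mem_filter] at hx
            exact ⟨fun i hi => ((hX x hx.1).1 i hi).2, (hX x hx.1).2⟩)
          (fun w F hF' => by
            rw [hHi]
            apply hE0 Y1 w F hYY
            intro y hy
            have h1 := hF' y hy
            rw [mem_filter] at h1
            have h2 := (hX _ h1.1).1 i0 hi0S
            rw [Function.update_self, hHi] at h2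
            exact ⟨h2.1, h2.2, h1.2⟩)
        have h1 : vv Y ^ A0' ≤ 2 ^ A0' * Real.log Y1 ^ A0' := by
          rw [← Real.mul_rpow (by norm_num) (by linarith)]
          apply Real.rpow_le_rpow (by linarith) _ hA0'0
          have h2 : vv Y ≤ vv Y1 := by
            unfold vv
            have := Real.log_le_log (by linarith) hY1
            linarith
          have h3 : vv Y1 = 1 + Real.log Y1 := rfl
          linarith
        have hvp : 0 < vv Y ^ A0' := Real.rpow_pos_of_pos (by linarith) _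
        have h2 : (((X.filter (fun x => ¬ Nx s S' b0 C0 Y1 x)).card : ℕ) : ℝ) * vv Y ^ A0' ≤
            CE * ∏ i ∈ S \ S', H i ^ n i := by
          have h3 : (0 : ℝ) ≤ ((X.filter (fun x => ¬ Nx s S' b0 C0 Y1 x)).card : ℕ) := Nat.cast_nonneg _
          have h4 : 0 < (2 : ℝ) ^ A0' := Real.rpow_pos_of_pos (by norm_num) _
          have h5 : 0 ≤ vv Y0 ^ A0' := Real.rpow_nonneg (by linarith) _
          calc (((X.filter (fun x => ¬ Nx s S' b0 C0 Y1 x)).card : ℕ) : ℝ) * vv Y ^ A0'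
              ≤ (((X.filter (fun x => ¬ Nx s S' b0 C0 Y1 x)).card : ℕ) : ℝ) * (2 ^ A0' * Real.log Y1 ^ A0') :=
                mul_le_mul_of_nonneg_left h1 h3
            _ = 2 ^ A0' * ((((X.filter (fun x => ¬ Nx s S' b0 C0 Y1 x)).card : ℕ) : ℝ) * Real.log Y1 ^ A0') := by
                ring
            _ ≤ 2 ^ A0' * (3 ^ (∑ i, n i) * ∏ i ∈ S \ S', H i ^ n i) := mul_le_mul_of_nonneg_left hcard h4.le
            _ ≤ CE * ∏ i ∈ S \ S', H i ^ n i := by
                have h6 : 0 ≤ 3 ^ (∑ i, n i) * vv Y0 ^ A0' * ∏ i ∈ S \ S', H i ^ n i := by positivity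
                rw [hCE]
                nlinarith [h6]
        have h3 : vv Y ^ (-A0') = (vv Y ^ A0')⁻¹ := Real.rpow_neg (by linarith) _
        have h4 : (((X.filter (fun x => ¬ Nx s S' b0 C0 Y1 x)).card : ℕ) : ℝ) ≤
            (CE * ∏ i ∈ S \ S', H i ^ n i) * vv Y ^ (-A0') := by
          rw [h3, ← div_eq_mul_inv, le_div_iff₀ hvp]
          exact h2
        exact h4.trans (mul_le_mul_of_nonneg_left hvA (by positivity))
    · push Not at hYY
      apply core s (E := X) hY hY1 hY2 hA1'1 hv' hb hb1 hM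
        (Wt_nonneg _ _ _ _) hCF.le hCR.le hCB.le hCE0.le (Subset.refl _) hFX
      · intro x hx hxE
        exact absurd hx hxE
      · intro x hx
        exact (hB S' x Y1 Y2 hne (by linarith) hY2 (hnm x hx)).1
      · have hcard := card_box (S \ S') H z X (fun i hi => hY.trans (hH i hi).1)
          (fun x hx => ⟨fun i hi => ((hX x hx).1 i hi).2, (hX x hx).2⟩)
        have h1 : vv Y ≤ vv Y0 := by
          unfold vv
          have := Real.log_le_log (by linarith) (hY1.trans hYY.le)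
          linarith
        have h2 : 1 ≤ vv Y0 ^ A0' * vv Y ^ (-A0') := by
          rw [Real.rpow_neg (by linarith), ← div_eq_mul_inv, le_div_iff₀ (Real.rpow_pos_of_pos (by linarith) _), one_mul]
          exact Real.rpow_le_rpow (by linarith) h1 hA0'0
        have h3 : (1 : ℝ) ≤ (2 ^ A0' + vv Y0 ^ A0') * vv Y ^ (-A0') := by
          have : 0 ≤ (2 : ℝ) ^ A0' * vv Y ^ (-A0') := by
            have := Real.rpow_nonneg (show (0 : ℝ) ≤ vv Y by linarith) (-A0')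
            positivity
          linarith
        have h4 : (1 : ℝ) ≤ (2 ^ A0' + vv Y0 ^ A0') * vv Y ^ (-A0) :=
          h3.trans (mul_le_mul_of_nonneg_left hvA (by positivity))
        have h5 : 0 ≤ 3 ^ (∑ i, n i) * ∏ i ∈ S \ S', H i ^ n i := by positivity
        calc (X.card : ℝ) ≤ 3 ^ (∑ i, n i) * ∏ i ∈ S \ S', H i ^ n i := hcard
          _ ≤ (3 ^ (∑ i, n i) * ∏ i ∈ S \ S', H i ^ n i) * ((2 ^ A0' + vv Y0 ^ A0') * vv Y ^ (-A0)) :=
              le_mul_of_one_le_right h5 h4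
          _ = CE * (∏ i ∈ S \ S', H i ^ n i) * vv Y ^ (-A0) := by
              rw [hCE]
              ring
  · set b := min 1 (c * κ) with hbd
    have hb : 0 < b := lt_min one_pos hcκ
    have hb1 : b ≤ 1 := min_le_left _ _
    refine ⟨b, A1' ^ Fintype.card ι * (CB * A1' * CF + CB * 1), hb, hb1, by positivity, ?_⟩
    intro S H Y Y1 Y2 z X hSS _ hY hY1 hY2 hv hH hi0S hHi hQ hz hX
    have hv0 := vv_pos hY
    have hv1 := vv_pos (hY.trans hY1)
    have hv2 := vv_pos ((hY.trans hY1).trans hY2)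
    have hv' : vv Y1 ≤ A1' * vv Y := hv.trans (mul_le_mul_of_nonneg_right (le_max_left _ _) (by linarith))
    have hM : 0 ≤ ∏ i ∈ S \ S', H i ^ n i :=
      prod_nonneg (fun i hi => pow_nonneg (by linarith [(hH i hi).1]) _)
    have hnm : ∀ x ∈ X, ∀ i, i ∉ S' → (∀ j, |(x i j : ℝ)| ≤ Y1) ∧ s.Nm i (x i) ≠ 0 := by
      intro x hx i hi
      obtain ⟨h1, h2⟩ := hX x hx
      by_cases hiS : i ∈ S
      · have h3 := h1 i (mem_sdiff.2 ⟨hiS, hi⟩)
        exact ⟨fun j => (h3.2 j).trans (hH i (mem_sdiff.2 ⟨hiS, hi⟩)).2, hs.n0 i (x i) h3.1⟩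
      · rw [h2 i (fun h => hiS (mem_sdiff.1 h).1)]
        exact ⟨fun j => ((hz i hiS).1 j).trans hY1, (hz i hiS).2⟩
    have hFX := hF S S' H Y z X hSS ⟨i0, hi0S⟩ hY (fun i hi => (hH i hi).1) hQ (fun i hi => (hz i hi).2)
      (fun x hx => ⟨fun i hi => ((hX x hx).1 i hi).2, (hX x hx).2⟩)
    apply core s (E := ∅) hY hY1 hY2 hA1'1 hv' hb hb1 hM
        (Wt_nonneg _ _ _ _) hCF.le hCB.le hCB.le zero_le_one (empty_subset _) hFX
    · intro x hx _
      refine ((hB S' x Y1 Y2 hne (by linarith) hY2 (hnm x hx)).2 hnu hbad).trans ?_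
      have hρ0 : 0 < vv Y1 / vv Y2 := div_pos (by linarith) (by linarith)
      have hρ1 : vv Y1 / vv Y2 ≤ 1 := by
        rw [div_le_one (by linarith)]
        unfold vv
        have := Real.log_le_log (by linarith) hY2
        linarith
      have h1 : (vv Y1 / vv Y2) ^ (c * κ) ≤ (vv Y1 / vv Y2) ^ b :=
        Real.rpow_le_rpow_of_exponent_ge hρ0 hρ1 (min_le_right _ _)
      have h2 : 0 ≤ vv Y1 ^ (-b) := Real.rpow_nonneg (by linarith) _
      apply mul_le_mul_of_nonneg_left _ (by positivity)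
      linarith
    · intro x hx
      exact absurd hx (notMem_empty x)
    · rw [card_empty, Nat.cast_zero]
      have : 0 ≤ vv Y ^ (-A0) := Real.rpow_nonneg (by linarith) _
      positivity

theorem st : S_FR → S_RB → S_RBX → S_ST := by
  intro hFR hRB hRBX ι _ _ n s A c κ hs hEx A1 A0
  classical
  rcases isEmpty_or_nonempty ι with he | hne
  · refine ⟨1, 1, one_pos, le_rfl, one_pos, ?_⟩
    intro S S' H Y Y1 Y2 z X _ _ _ _ _ _ _ h
    obtain ⟨i, _⟩ := h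
    exact he.elim i
  · choose bf Cf h using fun p : Finset ι × ι => pair hFR hRB hRBX s A c κ hs hEx A1 A0 p.1 p.2
    obtain ⟨p0, hp0⟩ := Finite.exists_min bf
    obtain ⟨p1, hp1⟩ := Finite.exists_max Cf
    refine ⟨bf p0, Cf p1, (h p0).1, (h p0).2.1, (h p1).2.2.1, ?_⟩
    intro S S' H Y Y1 Y2 z X hSS hS' hY hY1 hY2 hv hH hex hQ hz hX
    obtain ⟨i0, hi0, hHi⟩ := hex
    exact ((h (S', i0)).2.2.2.mono (hp0 _) (h (S', i0)).2.2.1.le (hp1 _)) S H Y Y1 Y2 z X hSS hS' hY hY1 hY2 hv hH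
      hi0 hHi hQ hz hX

end Pool.Agent.Q195.ESN.ST
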