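import Pool.Agent.Q161.ESN.Stm1

/-! # Project ESN of helper161: job ST, part A (copy of helper223's ESM.STA): counting, lower bounds for the densities -/

set_option autoImplicit false

namespace Pool.Agent.Q195.ESN.ST

open Finset
open Pool.Agent.Q51.EL (pr)
open Pool.Agent.Q161.ESN

variable {ι : Type} [Fintype ι] [DecidableEq ι] {n : ι → ℕ}

/-- if the fixed variables are units at `l` then the density is at least `1 - k A / l` -/
theorem frac_ge {s : Sy n} {A c κ : ℝ} (hs : Ok s A c κ) {l : ℕ} (hl : l.Prime) (hlB : ¬ l ∣ s.B)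
    (S : Finset ι) (z : Vc n) (hz : ∀ i, i ∉ S → rd n l z i ∈ s.U l i) :
    1 - (Fintype.card ι * A) / l ≤ frac n s.Om S l z := by
  classical
  have : NeZero l := ⟨hl.ne_zero⟩
  have hl0 : (0 : ℝ) < l := by exact_mod_cast hl.pos
  have hA1 := hs.A1
  set d := ∑ i ∈ S, n i with hd
  let F : Finset (Vm n l) := Fintype.piFinset (fun i => if i ∈ S then univ else {rd n l z i})
  have hFc : F.card = l ^ d := by
    show (Fintype.piFinset (fun i => if i ∈ S then (univ : Finset (Fin (n i) → ZMod l)) else {rd n l z i})).card = _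
    rw [Fintype.card_piFinset]
    have h1 : ∀ i, (if i ∈ S then (univ : Finset (Fin (n i) → ZMod l)) else {rd n l z i}).card =
        if i ∈ S then l ^ n i else 1 := by
      intro i
      split_ifs
      · rw [Finset.card_univ, Fintype.card_fun, Fintype.card_fin, ZMod.card]
      · rw [card_singleton]
    rw [prod_congr rfl (fun i _ => h1 i), prod_ite_mem, univ_inter, hd, prod_pow_eq_pow_sum]
  have hset : {y : Vm n l | y ∈ s.Om l ∧ ∀ i, i ∉ S → y i = rd n l z i} =
      ((F.filter (fun y => y ∈ s.Om l) : Finset (Vm n l)) : Set (Vm n l)) := by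
    ext y
    rw [Set.mem_ofPred_eq, coe_filter, Set.mem_ofPred_eq, Fintype.mem_piFinset]
    constructor
    · rintro ⟨h1, h2⟩
      refine ⟨fun i => ?_, h1⟩
      by_cases hi : i ∈ S
      · rw [if_pos hi]; exact mem_univ _
      · rw [if_neg hi, mem_singleton]; exact h2 i hi
    · rintro ⟨h1, h2⟩
      refine ⟨h2, fun i hi => ?_⟩
      have := h1 i
      rw [if_neg hi, mem_singleton] at this
      exact this
  let Fi : ι → Finset (Vm n l) := fun i => Fintype.piFinset
    (fun i' => if i' = i then ((s.U l i')ᶜ : Set _).toFinset else if i' ∈ S then univ else {rd n l z i'})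
  have hFic : ∀ i ∈ S, ((Fi i).card : ℝ) * l ≤ A * (l : ℝ) ^ d := by
    intro i hi
    have h0 : (Fi i).card = (((s.U l i)ᶜ : Set _).toFinset).card * ∏ i' ∈ S.erase i, l ^ n i' := by
      show (Fintype.piFinset (fun i' => if i' = i then ((s.U l i')ᶜ : Set (Fin (n i') → ZMod l)).toFinset else
        if i' ∈ S then univ else {rd n l z i'})).card = _
      rw [Fintype.card_piFinset, ← mul_prod_erase univ _ (mem_univ i), if_pos rfl]
      congr 1
      have h1 : ∀ i' ∈ univ.erase i, (if i' = i then ((s.U l i')ᶜ : Set (Fin (n i') → ZMod l)).toFinset else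
          if i' ∈ S then univ else {rd n l z i'}).card = if i' ∈ S.erase i then l ^ n i' else 1 := by
        intro i' hi'
        rw [mem_erase] at hi'
        rw [if_neg hi'.1]
        by_cases h2 : i' ∈ S
        · rw [if_pos h2, if_pos (mem_erase.2 ⟨hi'.1, h2⟩), Finset.card_univ, Fintype.card_fun,
            Fintype.card_fin, ZMod.card]
        · rw [if_neg h2, if_neg (fun h => h2 (mem_erase.1 h).2), card_singleton]
      rw [prod_congr rfl h1, prod_ite_mem]
      congr 1
      ext i'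
      simp only [mem_inter, mem_erase, mem_univ, and_true, ne_eq]
      tauto
    have h1 : (((s.U l i)ᶜ : Set (Fin (n i) → ZMod l)).toFinset).card = ((s.U l i)ᶜ : Set _).ncard :=
      (Set.ncard_eq_toFinset_card' _).symm
    have h2 := hs.cU l hl hlB i
    rw [h0, h1]
    push_cast
    have h3 : (0 : ℝ) ≤ ∏ i' ∈ S.erase i, (l : ℝ) ^ n i' := by positivity
    have h4 : (l : ℝ) ^ d = (l : ℝ) ^ n i * ∏ i' ∈ S.erase i, (l : ℝ) ^ n i' := by
      rw [hd, ← prod_pow_eq_pow_sum, mul_prod_erase S (fun i' => (l : ℝ) ^ n i') hi]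
    rw [h4]
    calc (((s.U l i)ᶜ : Set (Fin (n i) → ZMod l)).ncard : ℝ) * (∏ i' ∈ S.erase i, (l : ℝ) ^ n i') * l
        = ((((s.U l i)ᶜ : Set (Fin (n i) → ZMod l)).ncard : ℝ) * l) * ∏ i' ∈ S.erase i, (l : ℝ) ^ n i' := by ring
      _ ≤ (A * (l : ℝ) ^ n i) * ∏ i' ∈ S.erase i, (l : ℝ) ^ n i' := mul_le_mul_of_nonneg_right h2 h3
      _ = A * ((l : ℝ) ^ n i * ∏ i' ∈ S.erase i, (l : ℝ) ^ n i') := by ring
  have hsub : F.filter (fun y => ¬ y ∈ s.Om l) ⊆ S.biUnion Fi := by
    intro y hy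
    rw [mem_filter, Fintype.mem_piFinset] at hy
    obtain ⟨h1, h2⟩ := hy
    have h3 : ∃ i, y i ∉ s.U l i := by
      by_contra hcon
      push Not at hcon
      exact h2 (hs.unit l hl hlB y hcon)
    obtain ⟨i, hi⟩ := h3
    have hiS : i ∈ S := by
      by_contra hiS
      have := h1 i
      rw [if_neg hiS, mem_singleton] at this
      rw [this] at hi
      exact hi (hz i hiS)
    rw [mem_biUnion]
    refine ⟨i, hiS, ?_⟩
    rw [Fintype.mem_piFinset]
    intro i'
    by_cases h : i' = i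
    · rw [if_pos h, Set.mem_toFinset]
      subst h
      exact hi
    · rw [if_neg h]
      exact h1 i'
  have hbad : ((F.filter (fun y => ¬ y ∈ s.Om l)).card : ℝ) * l ≤ (Fintype.card ι * A) * (l : ℝ) ^ d := by
    have h1 : ((F.filter (fun y => ¬ y ∈ s.Om l)).card : ℝ) ≤ ∑ i ∈ S, ((Fi i).card : ℝ) := by
      have := (card_le_card hsub).trans card_biUnion_le
      exact_mod_cast this
    calc ((F.filter (fun y => ¬ y ∈ s.Om l)).card : ℝ) * l ≤ (∑ i ∈ S, ((Fi i).card : ℝ)) * l :=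
          mul_le_mul_of_nonneg_right h1 hl0.le
      _ = ∑ i ∈ S, ((Fi i).card : ℝ) * l := by rw [sum_mul]
      _ ≤ ∑ i ∈ S, A * (l : ℝ) ^ d := sum_le_sum hFic
      _ = S.card * (A * (l : ℝ) ^ d) := by rw [sum_const, nsmul_eq_mul]
      _ ≤ Fintype.card ι * (A * (l : ℝ) ^ d) := by
          apply mul_le_mul_of_nonneg_right _ (by positivity)
          exact_mod_cast S.card_le_univ
      _ = (Fintype.card ι * A) * (l : ℝ) ^ d := by ring
  have hsum := card_filter_add_card_filter_not (s := F) (fun y => y ∈ s.Om l)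
  have hsum' : ((F.filter (fun y => y ∈ s.Om l)).card : ℝ) + ((F.filter (fun y => ¬ y ∈ s.Om l)).card : ℝ) =
      (l : ℝ) ^ d := by
    rw [hFc] at hsum
    exact_mod_cast hsum
  unfold frac
  rw [hset, Set.ncard_coe_finset, ← hd]
  have hld : (0 : ℝ) < (l : ℝ) ^ d := by positivity
  rw [le_div_iff₀ hld]
  have h5 : ((F.filter (fun y => ¬ y ∈ s.Om l)).card : ℝ) ≤ (Fintype.card ι * A) / l * (l : ℝ) ^ d := by
    rw [div_mul_eq_mul_div, le_div_iff₀ hl0]
    exact hbad
  linarith

/-- the number of the vectors in a box -/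
theorem card_box (T : Finset ι) (H : ι → ℝ) (z : Vc n) (X : Finset (Vc n)) (hH : ∀ i ∈ T, 1 ≤ H i)
    (hX : ∀ x ∈ X, (∀ i ∈ T, ∀ j, |(x i j : ℝ)| ≤ H i) ∧ ∀ i, i ∉ T → x i = z i) :
    (X.card : ℝ) ≤ 3 ^ (∑ i, n i) * ∏ i ∈ T, H i ^ n i := by
  classical
  let F : Finset (Vc n) := Fintype.piFinset (fun i => if i ∈ T then
    Fintype.piFinset (fun _ : Fin (n i) => Finset.Icc (-(⌊H i⌋₊ : ℤ)) ⌊H i⌋₊) else {z i})
  have hsub : X ⊆ F := by
    intro x hx
    obtain ⟨h1, h2⟩ := hX x hx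
    rw [Fintype.mem_piFinset]
    intro i
    by_cases hi : i ∈ T
    · rw [if_pos hi, Fintype.mem_piFinset]
      intro j
      have h3 := h1 i hi j
      have h4 : (|x i j| : ℤ) ≤ ⌊H i⌋₊ := by
        have h5 : ((|x i j|.natAbs : ℕ) : ℝ) ≤ H i := by
          rw [Nat.cast_natAbs, abs_abs, Int.cast_abs]
          exact h3
        have h6 := Nat.le_floor h5
        have h7 : ((|x i j|.natAbs : ℕ) : ℤ) = |x i j| := by
          rw [Int.natCast_natAbs, abs_abs]
        rw [← h7]
        exact_mod_cast h6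
      rw [mem_Icc]
      exact abs_le.1 h4
    · rw [if_neg hi, mem_singleton]
      exact h2 i hi
  have hF : F.card = ∏ i ∈ T, (2 * ⌊H i⌋₊ + 1) ^ n i := by
    show (Fintype.piFinset (fun i => if i ∈ T then
      Fintype.piFinset (fun _ : Fin (n i) => Finset.Icc (-(⌊H i⌋₊ : ℤ)) ⌊H i⌋₊) else {z i})).card = _
    rw [Fintype.card_piFinset]
    have h1 : ∀ i, (if i ∈ T then
        Fintype.piFinset (fun _ : Fin (n i) => Finset.Icc (-(⌊H i⌋₊ : ℤ)) ⌊H i⌋₊) else {z i}).card =
        if i ∈ T then (2 * ⌊H i⌋₊ + 1) ^ n i else 1 := by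
      intro i
      split_ifs
      · rw [Fintype.card_piFinset, prod_const, Finset.card_univ, Fintype.card_fin, Int.card_Icc]
        congr 1
        omega
      · rw [card_singleton]
    rw [prod_congr rfl (fun i _ => h1 i), prod_ite_mem, univ_inter]
  have h1 : (X.card : ℝ) ≤ ∏ i ∈ T, ((2 * ⌊H i⌋₊ + 1 : ℕ) : ℝ) ^ n i := by
    have := card_le_card hsub
    rw [hF] at this
    exact_mod_cast this
  refine h1.trans ?_
  have h2 : ∀ i ∈ T, ((2 * ⌊H i⌋₊ + 1 : ℕ) : ℝ) ^ n i ≤ 3 ^ n i * H i ^ n i := by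
    intro i hi
    rw [← mul_pow]
    apply pow_le_pow_left₀ (by positivity)
    have h3 := Nat.floor_le (zero_le_one.trans (hH i hi))
    have h4 := hH i hi
    push_cast
    linarith
  calc ∏ i ∈ T, ((2 * ⌊H i⌋₊ + 1 : ℕ) : ℝ) ^ n i ≤ ∏ i ∈ T, (3 ^ n i * H i ^ n i) :=
        prod_le_prod (fun i _ => by positivity) h2
    _ = 3 ^ (∑ i ∈ T, n i) * ∏ i ∈ T, H i ^ n i := by rw [prod_mul_distrib, prod_pow_eq_pow_sum]
    _ ≤ 3 ^ (∑ i, n i) * ∏ i ∈ T, H i ^ n i := by
        apply mul_le_mul_of_nonneg_right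
        · apply pow_le_pow_right₀ (by norm_num)
          exact sum_le_sum_of_subset (subset_univ T)
        · exact prod_nonneg (fun i hi => pow_nonneg (zero_le_one.trans (hH i hi)) _)

end Pool.Agent.Q195.ESN.ST
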